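import Pool.Agent.K1H88.DP.Defs

/-! The pieces of project DP. -/

set_option autoImplicit false

namespace Pool.Agent.K1H88.DP

open Module NumberField
open scoped nonZeroDivisors

/-- HALL: all classes smaller than half: a permutation without fixed classes. -/
def S_HALL : Prop := ∀ (I : Type) [Fintype I] [DecidableEq I] (r : I → I → Prop), Equivalence r →
  (∀ i, 2 * Nat.card {j // r i j} ≤ Fintype.card I) → ∃ π : Equiv.Perm I, ∀ i, ¬ r i (π i)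

/-- DUAL: duality for the assignment problem, symmetric and invariant under an involution. -/
def S_DUAL : Prop := ∀ (I : Type) [Fintype I] [DecidableEq I] (b : I → I → ℝ) (e : I → I) (M : ℝ),
  Odd (Fintype.card I) → 3 ≤ Fintype.card I → (∀ i j, b i j = b j i) → (∀ i, e (e i) = i) →
  (∀ i j, b (e i) (e j) = b i j) →
  (∀ π : Equiv.Perm I, (∀ i, π i ≠ i) → ∑ i, b i (π i) ≤ M) →
  ∃ γ : I → ℝ, (∀ i j, i ≠ j → b i j ≤ γ i + γ j) ∧ 2 * ∑ i, γ i ≤ M ∧ ∀ i, γ (e i) = γ i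

/-- FIN: a nonzero element of a number field has norm one at almost all primes. -/
def S_FIN : Prop := ∀ (F : Type) [Field F] [NumberField F] (a : F), a ≠ 0 →
  {p : Nat.Primes | ∃ σ : F →+* Kp p, ‖σ a‖ ≠ 1}.Finite

/-- TRANS: from the complex numbers to all primes. -/
def S_TRANS : Prop := ∀ (ι : Type) [Fintype ι] (E : ι → Type) [∀ k, Field (E k)]
  [∀ k, NumberField (E k)] (x y : ∀ k, E k), Distinct E x y →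
  (∀ (p : Nat.Primes) (i j : Emb E (Kp p)), i ≠ j → pl E x y i j ≠ 0) ∧
  {p : Nat.Primes | ∃ i j : Emb E (Kp p), i ≠ j ∧ ‖pl E x y i j‖ ≠ 1}.Finite

/-- UNR: outside of finitely many primes all the norms are integral powers of `p`. -/
def S_UNR : Prop := ∀ (ι : Type) [Fintype ι] (E : ι → Type) [∀ k, Field (E k)]
  [∀ k, NumberField (E k)], ∃ N : ℕ, N ≠ 0 ∧ ∀ p : Nat.Primes, ¬ (p : ℕ) ∣ N → ∀ x y : ∀ k, E k,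
    (∀ i : Emb E (Kp p), vn E x y i = 0 ∨ ∃ m : ℤ, vn E x y i = ((p : ℕ) : ℝ) ^ m) ∧
    (∀ i j : Emb E (Kp p), pl E x y i j = 0 ∨ ∃ m : ℤ, ‖pl E x y i j‖ = ((p : ℕ) : ℝ) ^ m)

/-- RAT: a cluster with more than half of all points contains a rational point. -/
def S_RAT : Prop := ∀ (ι : Type) [Fintype ι] (E : ι → Type) [∀ k, Field (E k)]
  [∀ k, NumberField (E k)] (p : Nat.Primes) (x y : ∀ k, E k) (κ : ℝ) (S : Finset (Emb E (Kp p))),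
  (∀ i : Emb E (Kp p), vn E x y i ≠ 0) →
  Fintype.card (Emb E (Kp p)) < 2 * S.card →
  (∀ i ∈ S, ∀ j, j ∈ S ↔ ‖pl E x y i j‖ ≤ κ * (vn E x y i * vn E x y j)) →
  κ ≤ ‖((S.card : ℕ) : Kp p)‖ / (p : ℕ) →
  ∃ m : ℤ, (∀ i ∈ S, ‖i.2 (x i.1) - m * i.2 (y i.1)‖ ≤ vn E x y i / (p : ℕ)) ∨
    (∀ i ∈ S, ‖i.2 (y i.1) - m * i.2 (x i.1)‖ ≤ vn E x y i / (p : ℕ))

/-- MIN: every point has a model which is nearly stable at all primes. -/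
def S_MIN : Prop := ∀ (ι : Type) [Fintype ι] (E : ι → Type) [∀ k, Field (E k)]
  [∀ k, NumberField (E k)], Odd (deg E) → 3 ≤ deg E → ∃ c₀ : ℝ, 0 < c₀ ∧ ∀ x y : ∀ k, E k,
    Distinct E x y → ∃ a b c d : ℚ, a * d - b * c ≠ 0 ∧
      c₀ * (∏ᶠ p : Nat.Primes, ∏ i : Emb E (Kp p), vn E (a • x + b • y) (c • x + d • y) i) ^ 2 ≤
        ∏ᶠ p : Nat.Primes, loc E (Kp p) (a • x + b • y) (c • x + d • y)

/-- INV: the height is invariant under `GL₂(ℚ)`. -/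
def S_INV : Prop := ∀ (ι : Type) [Fintype ι] (E : ι → Type) [∀ k, Field (E k)]
  [∀ k, NumberField (E k)] (x y : ∀ k, E k), Distinct E x y → 3 ≤ deg E → ∀ a b c d : ℚ,
    a * d - b * c ≠ 0 → Distinct E (a • x + b • y) (c • x + d • y) ∧
      ht E (a • x + b • y) (c • x + d • y) = ht E x y

/-- IDEAL: the product of the local norms of `(x, y)` is the inverse of the norm of the fractional
ideal generated by `x` and `y`. -/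
def S_IDEAL : Prop := ∀ (F : Type) [Field F] [NumberField F] (x y : F), (x ≠ 0 ∨ y ≠ 0) →
  cont F x y * (FractionalIdeal.absNorm (FractionalIdeal.spanSingleton (𝓞 F)⁰ x +
    FractionalIdeal.spanSingleton (𝓞 F)⁰ y) : ℝ) = 1

/-- SCALE: Minkowski's theorem for the inverse of the ideal `(x, y)`. -/
def S_SCALE : Prop := ∀ (F : Type) [Field F] [NumberField F], ∃ C : ℝ, 1 ≤ C ∧ ∀ x y : F,
  (x ≠ 0 ∨ y ≠ 0) → ∀ r : (F →+* ℂ) → ℝ, (∀ σ, 0 < r σ) →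
  (∀ σ, r (ComplexEmbedding.conjugate σ) = r σ) →
  ∃ e : F, e ≠ 0 ∧ IsIntegral ℤ (e * x) ∧ IsIntegral ℤ (e * y) ∧
    (∀ σ : F →+* ℂ, (‖σ e‖ * r σ) ^ finrank ℚ F ≤ C ^ finrank ℚ F * (cont F x y * ∏ τ, r τ)) ∧
    1 ≤ C * cont F (e * x) (e * y)

/-- CINV: invariance of the content. -/
def S_CINV : Prop := ∀ (F : Type) [Field F] [NumberField F] (x y : F) (a b c d : ℤ),
  a * d - b * c = 1 → cont F (a * x + b * y) (c * x + d * y) = cont F x y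

/-- ZERO: the content of `(0, y)` for fields of degree one. -/
def S_ZERO : Prop := ∀ (F : Type) [Field F] [NumberField F] (y : F), finrank ℚ F = 1 → y ≠ 0 →
  ∀ σ : F →+* ℂ, cont F 0 y * ‖σ y‖ = 1

/-- RED: reduction of the plane lattice generated by `x` and `y`. -/
def S_RED : Prop := ∀ (ι : Type) [Fintype ι] (E : ι → Type) [∀ k, Field (E k)]
  [∀ k, NumberField (E k)] (B : ℝ) (x y : ∀ k, E k) (ρ : ι → ℝ), 3 ≤ deg E → 1 ≤ B →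
  Distinct E x y → (∀ k, 0 < ρ k) → (∀ i j : Emb E ℂ, ‖pl E x y i j‖ ≤ B * (ρ i.1 * ρ j.1)) →
  ∃ (a b c d : ℤ) (μ : ℝ) (i₀ : Emb E ℂ), a * d - b * c = 1 ∧ 0 < μ ∧ μ ≤ 3 * B ∧
    ‖i₀.2 ((a • x + b • y) i₀.1)‖ = μ * ρ i₀.1 ∧
    (∀ i : Emb E ℂ, ‖i.2 ((a • x + b • y) i.1)‖ ≤ μ * ρ i.1) ∧
    (∀ i : Emb E ℂ, ‖i.2 ((c • x + d • y) i.1)‖ ≤ 3 * B * ρ i.1 / μ) ∧
    |(i₀.2 ((c • x + d • y) i₀.1) / i₀.2 ((a • x + b • y) i₀.1)).re| ≤ 1 / 2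

/-- BOX: integers of a number field in a box. -/
def S_BOX : Prop := ∀ (F : Type) [Field F] [NumberField F], ∃ C : ℝ, 1 ≤ C ∧ ∀ R : ℝ, 1 ≤ R →
  {x : F | IsIntegral ℤ x ∧ ∀ σ : F →+* ℂ, ‖σ x‖ ≤ R}.Finite ∧
    ({x : F | IsIntegral ℤ x ∧ ∀ σ : F →+* ℂ, ‖σ x‖ ≤ R}.ncard : ℝ) ≤ C * R ^ finrank ℚ F

section
variable {ι : Type} [Fintype ι] (E : ι → Type) [∀ k, Field (E k)] [∀ k, NumberField (E k)]

/-- the pairs of integral elements in a slab -/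
def Slab (J : Finset ι) (B : ℝ) (R : ι → ℝ) (μ : ℝ) (i₀ : Emb E ℂ) :
    Set ((∀ k, E k) × (∀ k, E k)) :=
  {P | (∀ k, IsIntegral ℤ (P.1 k) ∧ IsIntegral ℤ (P.2 k)) ∧
    (∀ k, k ∉ J → P.1 k = 0 ∧ ∀ σ : E k →+* ℂ, ‖σ (P.2 k)‖ ≤ B) ∧
    (∀ k ∈ J, ∀ σ : E k →+* ℂ, ‖σ (P.1 k)‖ ≤ μ * R k ∧ ‖σ (P.2 k)‖ ≤ B * R k / μ) ∧
    i₀.2 (P.1 i₀.1) ≠ 0 ∧ |(i₀.2 (P.2 i₀.1) / i₀.2 (P.1 i₀.1)).re| ≤ 1 / 2}

/-- all reduced pairs of height at most `T` -/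
def Fam (B T : ℝ) : Set ((∀ k, E k) × (∀ k, E k)) :=
  {P | (∀ k, IsIntegral ℤ (P.1 k) ∧ IsIntegral ℤ (P.2 k)) ∧ Distinct E P.1 P.2 ∧
    (∀ k, P.1 k = 0 → ∀ σ : E k →+* ℂ, ‖σ (P.2 k)‖ ≤ B) ∧
    ∃ (ρ : ι → ℝ) (μ : ℝ) (i₀ : Emb E ℂ), (∀ k, 0 < ρ k) ∧ 0 < μ ∧ μ ≤ B ∧
      ∏ k, ρ k ^ (2 * finrank ℚ (E k)) ≤ T ∧
      ‖i₀.2 (P.1 i₀.1)‖ = μ * ρ i₀.1 ∧
      (∀ i : Emb E ℂ, ‖i.2 (P.1 i.1)‖ ≤ μ * ρ i.1) ∧
      (∀ i : Emb E ℂ, ‖i.2 (P.2 i.1)‖ ≤ B * ρ i.1 / μ) ∧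
      |(i₀.2 (P.2 i₀.1) / i₀.2 (P.1 i₀.1)).re| ≤ 1 / 2}

end

/-- SLAB: the number of the pairs in a slab. -/
def S_SLAB : Prop := ∀ (ι : Type) [Fintype ι] (E : ι → Type) [∀ k, Field (E k)]
  [∀ k, NumberField (E k)] (B : ℝ), 1 ≤ B → ∃ C : ℝ, 0 < C ∧
  ∀ (J : Finset ι) (R : ι → ℝ) (μ : ℝ) (i₀ : Emb E ℂ), 0 < μ → μ ≤ 2 * B →
    (∀ k ∈ J, 1 ≤ μ * R k) →
    (Slab E J B R μ i₀).Finite ∧
      ((Slab E J B R μ i₀).ncard : ℝ) ≤ C * μ ^ 2 * ∏ k ∈ J, R k ^ (2 * finrank ℚ (E k))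

/-- SUM: sum over dyadic boxes. -/
def S_SUM : Prop := ∀ (ι : Type) [Fintype ι] (J : Finset ι) (w : ι → ℕ) (c : ℕ), J.Nonempty →
  (∀ k, 1 ≤ w k) → ∃ C : ℝ, 0 < C ∧ ∀ L : ℝ, 1 ≤ L →
    {a : ι → ℤ | (∀ k, k ∉ J → a k = 0) ∧ (∀ k ∈ J, -(c : ℤ) ≤ a k) ∧
      ((∑ k ∈ J, w k * a k : ℤ) : ℝ) ≤ L}.Finite ∧
    ∀ A : Finset (ι → ℤ), (∀ a ∈ A, (∀ k, k ∉ J → a k = 0) ∧ (∀ k ∈ J, -(c : ℤ) ≤ a k) ∧
      ((∑ k ∈ J, w k * a k : ℤ) : ℝ) ≤ L) →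
      ∑ a ∈ A, (2 : ℝ) ^ (∑ k ∈ J, w k * a k : ℤ) ≤ C * 2 ^ L * L ^ (J.card - 1)

/-- TOT: the number of all reduced pairs of height at most `T`. -/
def S_TOT : Prop := ∀ (ι : Type) [Fintype ι] (E : ι → Type) [∀ k, Field (E k)]
  [∀ k, NumberField (E k)] (B : ℝ), 3 ≤ deg E → 1 ≤ B → ∃ C : ℝ, 0 < C ∧ ∀ T : ℝ, 2 ≤ T →
    (Fam E B T).Finite ∧
      ((Fam E B T).ncard : ℝ) ≤ C * T * Real.log T ^ (Fintype.card ι - 1)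

end Pool.Agent.K1H88.DP
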