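import Pool.Agent.K1H88.DP.Asm1

/-! The assembly of project DP: every point has a reduced representative. -/

set_option autoImplicit false
set_option linter.unusedSectionVars false

namespace Pool.Agent.K1H88.DP

open Module NumberField

lemma fin_cont (hFIN : S_FIN) (F : Type) [Field F] [NumberField F] {x y : F} (h : x ≠ 0 ∨ y ≠ 0) :
    (Function.mulSupport fun p : Nat.Primes => ∏ σ : F →+* Kp p, max ‖σ x‖ ‖σ y‖).Finite := by
  have key : ∀ z : F, {p : Nat.Primes | ∃ σ : F →+* Kp p, z ≠ 0 ∧ ‖σ z‖ ≠ 1}.Finite := by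
    intro z
    by_cases hz : z = 0
    · simp [hz]
    · refine (hFIN F z hz).subset ?_
      rintro p ⟨σ, _, h⟩
      exact ⟨σ, h⟩
  refine ((key x).union (key y)).subset ?_
  intro p hp
  by_contra hcon
  rw [Set.mem_union, not_or] at hcon
  obtain ⟨h1, h2⟩ := hcon
  simp only [Set.mem_ofPred_eq, not_exists, not_and, not_not] at h1 h2
  apply hp
  apply Finset.prod_eq_one
  intro σ _
  rcases h with h | h
  · rw [h1 σ h]
    apply max_eq_left
    by_cases hy : y = 0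
    · simp [hy]
    · exact (h2 σ hy).le
  · rw [h2 σ h]
    apply max_eq_right
    by_cases hx : x = 0
    · simp [hx]
    · exact (h1 σ hx).le

lemma cont_pos (hIDEAL : S_IDEAL) (F : Type) [Field F] [NumberField F] {x y : F}
    (h : x ≠ 0 ∨ y ≠ 0) : 0 < cont F x y := by
  have h1 : 0 ≤ cont F x y := finprod_nonneg fun p => Finset.prod_nonneg fun σ _ =>
    le_max_of_le_left (norm_nonneg _)
  refine lt_of_le_of_ne h1 fun h2 => ?_
  have h3 := hIDEAL F x y h
  rw [← h2, zero_mul] at h3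
  exact zero_ne_one h3

variable {ι : Type} [Fintype ι] (E : ι → Type) [∀ k, Field (E k)] [∀ k, NumberField (E k)]

lemma prod_cont (hFIN : S_FIN) {x y : ∀ k, E k} (h : ∀ k, x k ≠ 0 ∨ y k ≠ 0) :
    ∏ k, cont (E k) (x k) (y k) = ∏ᶠ p : Nat.Primes, ∏ i : Emb E (Kp p), vn E x y i := by
  unfold cont
  rw [← finprod_prod_comm]
  · apply finprod_congr
    intro p
    rw [Fintype.prod_sigma]
    rfl
  · intro k _
    exact fin_cont hFIN (E k) (h k)

lemma le_loc (x y : ∀ k, E k) (π : Equiv.Perm (Emb E ℂ)) :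
    ∏ i, ‖pl E x y i (π i)‖ ≤ loc E ℂ x y := by
  classical
  exact le_ciSup (f := fun π : Equiv.Perm (Emb E ℂ) => ∏ i, ‖pl E x y i (π i)‖)
    (Set.finite_range _).bddAbove π

lemma loc_pos {x y : ∀ k, E k} (h : Distinct E x y) (hd : 3 ≤ deg E) : 0 < loc E ℂ x y := by
  classical
  have hc := card_emb E ℂ
  obtain ⟨π, hπ⟩ : ∃ π : Equiv.Perm (Emb E ℂ), ∀ i, π i ≠ i := by
    have e := Fintype.equivFin (Emb E ℂ)
    rw [hc] at e
    obtain ⟨m, hm⟩ : ∃ m, deg E = m + 2 := ⟨deg E - 2, by omega⟩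
    rw [hm] at e
    refine ⟨(e.trans (finRotate (m + 2))).trans e.symm, fun i hi => ?_⟩
    have h1 : finRotate (m + 2) (e i) = e i := by
      have := congrArg e hi
      simpa using this
    have h2 : finRotate (m + 2) (e i) = e i + 1 := finRotate_apply _
    rw [h1] at h2
    have h3 : (1 : Fin (m + 2)) = 0 := by
      have := h2.symm
      simpa using this
    exact absurd h3 (by simp [Fin.ext_iff])
  exact lt_of_lt_of_le (Finset.prod_pos fun i _ => norm_pos_iff.2 (h i (π i) (Ne.symm (hπ i))))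
    (le_loc E x y π)

/-- The duality at infinity: `‖pl i j‖ ≤ r i * r j` with the product of all `r i ^ 2` at most the
local factor. -/
lemma dual_inf (hDUAL : S_DUAL) {x y : ∀ k, E k} (h : Distinct E x y) (hodd : Odd (deg E))
    (hd : 3 ≤ deg E) : ∃ r : Emb E ℂ → ℝ, (∀ i, 0 < r i) ∧ (∀ i, r (cj E i) = r i) ∧
      (∀ i j, ‖pl E x y i j‖ ≤ r i * r j) ∧ (∏ i, r i) ^ 2 ≤ loc E ℂ x y := by
  classical
  have hc := card_emb E ℂ
  have hA := loc_pos E h hd
  obtain ⟨γ, h1, h2, h3⟩ := hDUAL (Emb E ℂ) (fun i j => Real.log ‖pl E x y i j‖) (cj E)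
    (Real.log (loc E ℂ x y)) (by rwa [hc]) (by rwa [hc])
    (fun i j => by rw [pl_swap E x y j i, norm_neg]) (cj_cj E)
    (fun i j => by rw [pl_cj, RCLike.norm_conj]) (fun π hπ => by
      have hne : ∀ i ∈ Finset.univ, ‖pl E x y i (π i)‖ ≠ 0 := fun i _ =>
        norm_ne_zero_iff.2 (h i (π i) (Ne.symm (hπ i)))
      rw [← Real.log_prod hne]
      exact Real.log_le_log (Finset.prod_pos fun i hi => (norm_nonneg _).lt_of_ne' (hne i hi))
        (le_loc E x y π))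
  refine ⟨fun i => Real.exp (γ i), fun i => Real.exp_pos _, fun i => by simp only [h3 i],
    fun i j => ?_, ?_⟩
  · rw [← Real.exp_add]
    by_cases hij : i = j
    · rw [hij, pl_self, norm_zero]
      exact (Real.exp_pos _).le
    · rw [← Real.log_le_iff_le_exp (norm_pos_iff.2 (h i j hij))]
      exact h1 i j hij
  · rw [← Real.exp_sum, ← Real.exp_nat_mul, ← Real.le_log_iff_exp_le hA]
    exact_mod_cast h2

/-- Every point has a reduced representative. -/
theorem reduced (hMIN : S_MIN) (hINV : S_INV) (hDUAL : S_DUAL) (hFIN : S_FIN) (hIDEAL : S_IDEAL)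
    (hSCALE : S_SCALE) (hCINV : S_CINV) (hZERO : S_ZERO) (hRED : S_RED) (hodd : Odd (deg E))
    (hd : 3 ≤ deg E) : ∃ B C : ℝ, 1 ≤ B ∧ 1 ≤ C ∧
      ∀ (T : ℝ) (P : (∀ k, E k) × (∀ k, E k)), Distinct E P.1 P.2 → ht E P.1 P.2 ≤ T →
        ∃ Q ∈ Fam E B (C * T), Same E P Q := by
  classical
  obtain ⟨c₀, hc₀, hmin⟩ := hMIN ι E hodd hd
  choose D hD1 hD using fun k => hSCALE (E k)
  set D' : ℝ := 1 + ∑ k, D k with hD'
  have hDle : ∀ k, D k ≤ D' := by
    intro k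
    have : D k ≤ ∑ k, D k := Finset.single_le_sum (f := D) (fun k _ => by linarith [hD1 k])
      (Finset.mem_univ k)
    linarith
  have hD'1 : 1 ≤ D' := by
    have : 0 ≤ ∑ k, D k := Finset.sum_nonneg fun k _ => by linarith [hD1 k]
    linarith
  refine ⟨3 * D' ^ 2, max 1 (1 / c₀), by nlinarith, le_max_left _ _, ?_⟩
  intro T P hP hT
  obtain ⟨a, b, c, d, hdet, hm⟩ := hmin P.1 P.2 hP
  obtain ⟨hP1, hht⟩ := hINV ι E P.1 P.2 hP hd a b c d hdet
  set x : ∀ k, E k := a • P.1 + b • P.2 with hx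
  set y : ∀ k, E k := c • P.1 + d • P.2 with hy
  have hne := hP1.ne E hd
  obtain ⟨r, hr0, hrc, hrp, hrA⟩ := dual_inf E hDUAL hP1 hodd hd
  have hcp : ∀ k, 0 < cont (E k) (x k) (y k) := fun k => cont_pos hIDEAL (E k) (hne k)
  choose e he0 hex hey her hec using fun k => hD k (x k) (y k) (hne k) (fun σ => r ⟨k, σ⟩)
    (fun σ => hr0 _) (fun σ => hrc ⟨k, σ⟩)
  have hn : ∀ k, finrank ℚ (E k) ≠ 0 := fun k => finrank_pos.ne'
  set ρ : ι → ℝ := fun k => (cont (E k) (x k) (y k) * ∏ σ, r ⟨k, σ⟩) ^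
    (1 / (finrank ℚ (E k) : ℝ)) with hρ
  have hbase : ∀ k, 0 < cont (E k) (x k) (y k) * ∏ σ : E k →+* ℂ, r ⟨k, σ⟩ := fun k =>
    mul_pos (hcp k) (Finset.prod_pos fun σ _ => hr0 _)
  have hρ0 : ∀ k, 0 < ρ k := fun k => Real.rpow_pos_of_pos (hbase k) _
  have hρn : ∀ k, ρ k ^ finrank ℚ (E k) = cont (E k) (x k) (y k) * ∏ σ, r ⟨k, σ⟩ := by
    intro k
    simp only [hρ, one_div]
    exact Real.rpow_inv_natCast_pow (hbase k).le (hn k)
  have hse : ∀ i : Emb E ℂ, ‖i.2 (e i.1)‖ * r i ≤ D' * ρ i.1 := by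
    intro i
    have h1 := her i.1 i.2
    rw [← hρn, ← mul_pow] at h1
    have h2 := le_of_pow_le_pow_left₀ (hn i.1)
      (mul_nonneg (by linarith [hD1 i.1]) (hρ0 i.1).le) h1
    exact h2.trans (mul_le_mul_of_nonneg_right (hDle _) (hρ0 _).le)
  have hP2 : Distinct E (e * x) (e * y) := hP1.mul E he0
  have hpl : ∀ i j : Emb E ℂ, ‖pl E (e * x) (e * y) i j‖ ≤ D' ^ 2 * (ρ i.1 * ρ j.1) := by
    intro i j
    rw [pl_mul, norm_mul, norm_mul]
    calc ‖i.2 (e i.1)‖ * ‖j.2 (e j.1)‖ * ‖pl E x y i j‖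
        ≤ ‖i.2 (e i.1)‖ * ‖j.2 (e j.1)‖ * (r i * r j) :=
          mul_le_mul_of_nonneg_left (hrp i j) (by positivity)
      _ = (‖i.2 (e i.1)‖ * r i) * (‖j.2 (e j.1)‖ * r j) := by ring
      _ ≤ (D' * ρ i.1) * (D' * ρ j.1) := mul_le_mul (hse i) (hse j)
          (mul_nonneg (norm_nonneg _) (hr0 _).le) (mul_nonneg (by linarith) (hρ0 _).le)
      _ = _ := by ring
  obtain ⟨a', b', c', d', μ, i₀, hdet', hμ0, hμB, h1, h2, h3, h4⟩ :=
    hRED ι E (D' ^ 2) (e * x) (e * y) ρ hd (one_le_pow₀ hD'1) hP2 hρ0 hpl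
  have hsame : Same E P (a' • (e * x) + b' • (e * y), c' • (e * x) + d' • (e * y)) := by
    have s1 : Same E P (x, y) := same_rat E P a b c d hdet
    have s2 : Same E (x, y) (e * x, e * y) := same_mul E (x, y) e he0
    have s3 := same_int E (e * x, e * y) a' b' c' d' hdet'
    exact (s1.trans E s2).trans E s3
  refine ⟨_, ?_, hsame⟩
  have hP3 : Distinct E (a' • (e * x) + b' • (e * y)) (c' • (e * x) + d' • (e * y)) :=
    hP2.int E hdet'
  have hB1 : (1 : ℝ) ≤ D' ^ 2 := one_le_pow₀ hD'1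
  refine ⟨fun k => ⟨?_, ?_⟩, hP3, ?_, ρ, μ, i₀, hρ0, hμ0, hμB, ?_, h1, h2, h3, h4⟩
  · exact ((hex k).smul a').add ((hey k).smul b')
  · exact ((hex k).smul c').add ((hey k).smul d')
  · intro k hk σ
    obtain ⟨hk1, hk2⟩ := hP3.zero E hd hk
    have e1 : ∀ (u v : ℤ), (u • (e * x) + v • (e * y)) k = u * (e k * x k) + v * (e k * y k) := by
      intro u v
      rw [Pi.add_apply, Pi.smul_apply, Pi.smul_apply, zsmul_eq_mul, zsmul_eq_mul]
      rfl
    have g1 := hCINV (E k) (e k * x k) (e k * y k) a' b' c' d' hdet'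
    rw [← e1, ← e1] at g1
    simp only at hk hk2
    rw [hk] at g1
    have g2 := hZERO (E k) _ hk1 hk2 σ
    have g3 := hec k
    rw [← g1] at g3
    have g4 : 0 < cont (E k) 0 ((c' • (e * x) + d' • (e * y)) k) := cont_pos hIDEAL _ (Or.inr hk2)
    have g5 : ‖σ ((c' • (e * x) + d' • (e * y)) k)‖ ≤ D k := by
      have : ‖σ ((c' • (e * x) + d' • (e * y)) k)‖ =
          1 * ‖σ ((c' • (e * x) + d' • (e * y)) k)‖ := (one_mul _).symm
      rw [this]
      calc 1 * ‖σ ((c' • (e * x) + d' • (e * y)) k)‖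
          ≤ D k * cont (E k) 0 ((c' • (e * x) + d' • (e * y)) k) *
            ‖σ ((c' • (e * x) + d' • (e * y)) k)‖ := mul_le_mul_of_nonneg_right g3 (norm_nonneg _)
        _ = D k := by rw [mul_assoc, g2, mul_one]
    have g6 := hDle k
    simp only
    nlinarith
  · have g1 : ∏ k, ρ k ^ (2 * finrank ℚ (E k)) =
        (∏ k, cont (E k) (x k) (y k)) ^ 2 * (∏ i, r i) ^ 2 := by
      rw [← mul_pow, Fintype.prod_sigma, ← Finset.prod_mul_distrib, ← Finset.prod_pow]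
      refine Finset.prod_congr rfl fun k _ => ?_
      rw [mul_comm 2, pow_mul, hρn]
    rw [g1, prod_cont E hFIN hne]
    have g2 : 0 ≤ ∏ᶠ p : Nat.Primes, loc E (Kp p) x y := finprod_nonneg fun p => by
      unfold loc
      exact Real.iSup_nonneg fun π => Finset.prod_nonneg fun i _ => norm_nonneg _
    have g3 : ht E x y ≤ T := hht.trans_le hT
    have g4 : c₀ * ((∏ᶠ p : Nat.Primes, ∏ i : Emb E (Kp p), vn E x y i) ^ 2 *
        (∏ i, r i) ^ 2) ≤ T := by
      calc _ = (c₀ * (∏ᶠ p : Nat.Primes, ∏ i : Emb E (Kp p), vn E x y i) ^ 2) *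
            (∏ i, r i) ^ 2 := by ring
        _ ≤ (∏ᶠ p : Nat.Primes, loc E (Kp p) x y) * loc E ℂ x y :=
            mul_le_mul hm hrA (by positivity) g2
        _ = ht E x y := by unfold ht; ring
        _ ≤ T := g3
    have g5 : (∏ᶠ p : Nat.Primes, ∏ i : Emb E (Kp p), vn E x y i) ^ 2 * (∏ i, r i) ^ 2 ≤
        1 / c₀ * T := by
      rw [div_mul_eq_mul_div, one_mul, le_div_iff₀ hc₀, mul_comm]
      exact g4
    have g6 : 0 ≤ T := le_trans (by positivity) g4
    exact g5.trans (mul_le_mul_of_nonneg_right (le_max_right _ _) g6)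

/-- The final count. -/
theorem count (hMIN : S_MIN) (hINV : S_INV) (hDUAL : S_DUAL) (hFIN : S_FIN) (hIDEAL : S_IDEAL)
    (hSCALE : S_SCALE) (hCINV : S_CINV) (hZERO : S_ZERO) (hRED : S_RED) (hTOT : S_TOT)
    (hodd : Odd (deg E)) (hd : 3 ≤ deg E) : ∃ C : ℝ, ∀ T : ℝ, 2 ≤ T →
      ∀ A : Set ((∀ k, E k) × (∀ k, E k)),
        (∀ P ∈ A, Distinct E P.1 P.2 ∧ ht E P.1 P.2 ≤ T) →
        (∀ P ∈ A, ∀ Q ∈ A, Same E P Q → P = Q) →
        A.Finite ∧ (A.ncard : ℝ) ≤ C * T * Real.log T ^ (Fintype.card ι - 1) := by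
  classical
  obtain ⟨B, C₁, hB, hC₁, h⟩ := reduced E hMIN hINV hDUAL hFIN hIDEAL hSCALE hCINV hZERO hRED
    hodd hd
  obtain ⟨C₂, hC₂, h2⟩ := hTOT ι E B hd hB
  set L : ℝ := 1 + Real.log C₁ / Real.log 2 with hL
  have hlog2 : 0 < Real.log 2 := Real.log_pos (by norm_num)
  have hL1 : 0 ≤ L := by
    have := Real.log_nonneg hC₁
    positivity
  refine ⟨C₂ * C₁ * L ^ (Fintype.card ι - 1), fun T hT A hA hinj => ?_⟩
  have hCT : 2 ≤ C₁ * T := by nlinarith
  obtain ⟨hfin, hcard⟩ := h2 (C₁ * T) hCT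
  choose! f hf hs using fun (P : (∀ k, E k) × (∀ k, E k)) (hP : P ∈ A) =>
    h T P (hA P hP).1 (hA P hP).2
  have hinj' : Set.InjOn f A := by
    intro P hP Q hQ hPQ
    exact hinj P hP Q hQ (same_of_common E (hs P hP) (hPQ ▸ hs Q hQ))
  have hmaps : Set.MapsTo f A (Fam E B (C₁ * T)) := fun P hP => hf P hP
  refine ⟨Set.Finite.of_injOn hmaps hinj' hfin, ?_⟩
  have h3 : A.ncard ≤ (Fam E B (C₁ * T)).ncard :=
    Set.ncard_le_ncard_of_injOn f hmaps hinj' hfin
  have h4 : Real.log (C₁ * T) ≤ L * Real.log T := by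
    have hT0 : 0 < T := by linarith
    have hC0 : 0 < C₁ := by linarith
    rw [Real.log_mul hC0.ne' hT0.ne', hL]
    have h5 : Real.log 2 ≤ Real.log T := Real.log_le_log (by norm_num) hT
    have h6 : Real.log C₁ ≤ Real.log C₁ / Real.log 2 * Real.log T := by
      rw [div_mul_eq_mul_div, le_div_iff₀ hlog2]
      exact mul_le_mul_of_nonneg_left h5 (Real.log_nonneg hC₁)
    linarith
  have h5 : 0 ≤ Real.log (C₁ * T) := Real.log_nonneg (by linarith)
  calc (A.ncard : ℝ) ≤ ((Fam E B (C₁ * T)).ncard : ℝ) := by exact_mod_cast h3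
    _ ≤ C₂ * (C₁ * T) * Real.log (C₁ * T) ^ (Fintype.card ι - 1) := hcard
    _ ≤ C₂ * (C₁ * T) * (L * Real.log T) ^ (Fintype.card ι - 1) := by
        apply mul_le_mul_of_nonneg_left (pow_le_pow_left₀ h5 h4 _)
        have : 0 < T := by linarith
        positivity
    _ = _ := by rw [mul_pow]; ring

end Pool.Agent.K1H88.DP
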