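import Pool.Agent.K1H88.DP.Stm

/-! Simple facts used in the assembly of project DP. -/

set_option autoImplicit false
set_option linter.unusedSectionVars false

namespace Pool.Agent.K1H88.DP

open Module NumberField

variable {ι : Type} [Fintype ι] (E : ι → Type) [∀ k, Field (E k)] [∀ k, NumberField (E k)]

lemma card_emb (K : Type) [Field K] [CharZero K] [IsAlgClosed K] :
    Fintype.card (Emb E K) = deg E := by
  unfold Emb deg
  rw [Fintype.card_sigma]
  exact Finset.sum_congr rfl fun k _ => Embeddings.card (E k) K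

lemma same_of_common {P Q R : (∀ k, E k) × (∀ k, E k)} (h1 : Same E P R) (h2 : Same E Q R) :
    Same E P Q := by
  obtain ⟨e, a, b, c, d, he, hd, h3, h4⟩ := h1
  obtain ⟨e', a', b', c', d', he', hd', h3', h4'⟩ := h2
  have h7 : ∀ k, ((a' * d' - b' * c' : ℚ) : E k) ≠ 0 := fun k => by exact_mod_cast hd'
  refine ⟨fun k => e k / (e' k * ((a' * d' - b' * c' : ℚ) : E k)), d' * a - b' * c,
    d' * b - b' * d, a' * c - c' * a, a' * d - c' * b,
    fun k => div_ne_zero (he k) (mul_ne_zero (he' k) (h7 k)), ?_, ?_, ?_⟩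
  · have : (d' * a - b' * c) * (a' * d - c' * b) - (d' * b - b' * d) * (a' * c - c' * a) =
      (a * d - b * c) * (a' * d' - b' * c') := by ring
    rw [this]
    exact mul_ne_zero hd hd'
  · funext k
    have h5 := congrFun (h3.symm.trans h3') k
    have h6 := congrFun (h4.symm.trans h4') k
    simp only [Pi.mul_apply, Pi.add_apply, Pi.smul_apply, Rat.smul_def] at h5 h6 ⊢
    have h8 := he' k
    rw [div_mul_eq_mul_div, eq_div_iff (mul_ne_zero h8 (h7 k))]
    push_cast
    linear_combination (-(d' : E k)) * h5 + (b' : E k) * h6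
  · funext k
    have h5 := congrFun (h3.symm.trans h3') k
    have h6 := congrFun (h4.symm.trans h4') k
    simp only [Pi.mul_apply, Pi.add_apply, Pi.smul_apply, Rat.smul_def] at h5 h6 ⊢
    have h8 := he' k
    rw [div_mul_eq_mul_div, eq_div_iff (mul_ne_zero h8 (h7 k))]
    push_cast
    linear_combination ((c' : E k)) * h5 - (a' : E k) * h6

lemma same_rat (P : (∀ k, E k) × (∀ k, E k)) (a b c d : ℚ) (h : a * d - b * c ≠ 0) :
    Same E P (a • P.1 + b • P.2, c • P.1 + d • P.2) :=
  ⟨1, a, b, c, d, fun k => one_ne_zero, h, by simp, by simp⟩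

lemma same_int (P : (∀ k, E k) × (∀ k, E k)) (a b c d : ℤ) (h : a * d - b * c = 1) :
    Same E P (a • P.1 + b • P.2, c • P.1 + d • P.2) := by
  refine ⟨1, a, b, c, d, fun k => one_ne_zero, ?_, ?_, ?_⟩
  · have : ((a * d - b * c : ℤ) : ℚ) = 1 := by rw [h]; simp
    push_cast at this
    rw [this]
    exact one_ne_zero
  · funext k
    simp [Rat.smul_def]
  · funext k
    simp [Rat.smul_def]

lemma same_mul (P : (∀ k, E k) × (∀ k, E k)) (e : ∀ k, E k) (h : ∀ k, e k ≠ 0) :
    Same E P (e * P.1, e * P.2) :=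
  ⟨e, 1, 0, 0, 1, h, by norm_num, by simp, by simp⟩

lemma Same.trans {P Q R : (∀ k, E k) × (∀ k, E k)} (h1 : Same E P Q) (h2 : Same E Q R) :
    Same E P R := by
  obtain ⟨e, a, b, c, d, he, hd, h3, h4⟩ := h1
  obtain ⟨e', a', b', c', d', he', hd', h3', h4'⟩ := h2
  refine ⟨e' * e, a' * a + b' * c, a' * b + b' * d, c' * a + d' * c, c' * b + d' * d,
    fun k => mul_ne_zero (he' k) (he k), ?_, ?_, ?_⟩
  · have : (a' * a + b' * c) * (c' * b + d' * d) - (a' * b + b' * d) * (c' * a + d' * c) =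
      (a' * d' - b' * c') * (a * d - b * c) := by ring
    rw [this]
    exact mul_ne_zero hd' hd
  · rw [h3', h3, h4]
    funext k
    simp only [Pi.mul_apply, Pi.add_apply, Pi.smul_apply, Rat.smul_def]
    push_cast
    ring
  · rw [h4', h3, h4]
    funext k
    simp only [Pi.mul_apply, Pi.add_apply, Pi.smul_apply, Rat.smul_def]
    push_cast
    ring

/-- the conjugate embedding -/
noncomputable def cj (i : Emb E ℂ) : Emb E ℂ := ⟨i.1, ComplexEmbedding.conjugate i.2⟩

lemma cj_cj (i : Emb E ℂ) : cj E (cj E i) = i := by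
  unfold cj
  simp [ComplexEmbedding.involutive_conjugate (E i.1) i.2]

lemma pl_mul {K : Type} [NormedField K] (x y e : ∀ k, E k) (i j : Emb E K) :
    pl E (e * x) (e * y) i j = i.2 (e i.1) * j.2 (e j.1) * pl E x y i j := by
  simp only [pl, Pi.mul_apply, map_mul]
  ring

lemma pl_int {K : Type} [NormedField K] (x y : ∀ k, E k) (a b c d : ℤ) (i j : Emb E K) :
    pl E (a • x + b • y) (c • x + d • y) i j = (a * d - b * c : ℤ) * pl E x y i j := by
  have h : ∀ (m : ℤ) (z : ∀ k, E k) (l : Emb E K), l.2 ((m • z) l.1) = (m : K) * l.2 (z l.1) := by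
    intro m z l
    rw [Pi.smul_apply, zsmul_eq_mul, map_mul, map_intCast]
  simp only [pl, Pi.add_apply, map_add, h]
  push_cast
  ring

lemma pl_cj (x y : ∀ k, E k) (i j : Emb E ℂ) :
    pl E x y (cj E i) (cj E j) = (starRingEnd ℂ) (pl E x y i j) := by
  simp only [pl, cj, map_sub, map_mul]
  rfl

lemma pl_swap {K : Type} [NormedField K] (x y : ∀ k, E k) (i j : Emb E K) :
    pl E x y j i = - pl E x y i j := by
  unfold pl
  ring

lemma pl_self {K : Type} [NormedField K] (x y : ∀ k, E k) (i : Emb E K) : pl E x y i i = 0 := by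
  unfold pl
  ring

/-- at least two embeddings: no coordinate vanishes -/
lemma Distinct.ne {x y : ∀ k, E k} (h : Distinct E x y) (hd : 3 ≤ deg E) (k : ι) :
    x k ≠ 0 ∨ y k ≠ 0 := by
  by_contra hcon
  push Not at hcon
  obtain ⟨h1, h2⟩ := hcon
  have hc := card_emb E ℂ
  obtain ⟨σ⟩ : Nonempty (E k →+* ℂ) := inferInstance
  obtain ⟨j, hj⟩ : ∃ j : Emb E ℂ, j ≠ ⟨k, σ⟩ := by
    by_contra hno
    push Not at hno
    have : Fintype.card (Emb E ℂ) ≤ 1 := Fintype.card_le_one_iff.2 fun a b => (hno a).trans (hno b).symm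
    omega
  apply h ⟨k, σ⟩ j (Ne.symm hj)
  simp [pl, h1, h2]

/-- if `x k = 0`, then `E k` has degree one and `y k ≠ 0` -/
lemma Distinct.zero {x y : ∀ k, E k} (h : Distinct E x y) (hd : 3 ≤ deg E) {k : ι} (hk : x k = 0) :
    finrank ℚ (E k) = 1 ∧ y k ≠ 0 := by
  refine ⟨?_, (h.ne E hd k).resolve_left (by simpa using hk)⟩
  by_contra hne
  have h1 : 0 < finrank ℚ (E k) := finrank_pos
  have h2 : 1 < Fintype.card (E k →+* ℂ) := by
    rw [Embeddings.card (E k) ℂ]
    omega
  obtain ⟨σ, τ, hst⟩ := Fintype.exists_pair_of_one_lt_card h2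
  apply h ⟨k, σ⟩ ⟨k, τ⟩
  · intro e
    exact hst (eq_of_heq (Sigma.mk.inj e).2)
  · simp [pl, hk]

lemma Distinct.mul {x y e : ∀ k, E k} (h : Distinct E x y) (he : ∀ k, e k ≠ 0) :
    Distinct E (e * x) (e * y) := by
  intro i j hij
  rw [pl_mul]
  exact mul_ne_zero (mul_ne_zero ((map_ne_zero _).2 (he _)) ((map_ne_zero _).2 (he _))) (h i j hij)

lemma Distinct.int {x y : ∀ k, E k} (h : Distinct E x y) {a b c d : ℤ} (hd : a * d - b * c = 1) :
    Distinct E (a • x + b • y) (c • x + d • y) := by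
  intro i j hij
  rw [pl_int, hd]
  simpa using h i j hij

end Pool.Agent.K1H88.DP
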