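import Mathlib

/-!
# Forms of `(ℙ¹)ⁿ // SL₂`, `n` odd: points and anticanonical height

`E k`, `k ∈ ι`: number fields, `∑ [E k : ℚ] = n` odd. The pairs `(x, y)`, `x, y ∈ ∏ E k`, whose
`n` conjugates are different points of the projective line, up to `GL₂(ℚ)` and `∏ (E k)ˣ`, are the
rational points of an open subset of the form of `(ℙ¹)ⁿ // SL₂` attached to the étale algebra
`∏ E k`.
-/

set_option autoImplicit false

namespace Pool.Agent.K1H88.DP

variable {ι : Type} [Fintype ι] (E : ι → Type) [∀ k, Field (E k)] [∀ k, NumberField (E k)]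

/-- The embeddings of the algebra `∏ E k` into the field `K`: pairs of an index `k` and an
embedding of `E k`. -/
abbrev Emb (K : Type) [Field K] : Type := Σ k, (E k →+* K)

variable {K : Type} [NormedField K]

/-- `σ(x) τ(y) - τ(x) σ(y)`, for the embeddings `i = σ`, `j = τ`. -/
def pl (x y : ∀ k, E k) (i j : Emb E K) : K :=
  i.2 (x i.1) * j.2 (y j.1) - j.2 (x j.1) * i.2 (y i.1)

/-- the norm of the vector `(σ(x), σ(y))` -/
noncomputable def vn (x y : ∀ k, E k) (i : Emb E K) : ℝ := max ‖i.2 (x i.1)‖ ‖i.2 (y i.1)‖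

variable (K) in
/-- The local factor of the height: the maximum, over all permutations `π` of the embeddings, of the
product of all `‖σ(x) π(σ)(y) - π(σ)(x) σ(y)‖`. -/
noncomputable def loc [CharZero K] (x y : ∀ k, E k) : ℝ :=
  ⨆ π : Equiv.Perm (Emb E K), ∏ i, ‖pl E x y i (π i)‖

instance factPrime (p : Nat.Primes) : Fact (p : ℕ).Prime := ⟨p.2⟩

/-- The field `ℂ_p` is not needed: an algebraic closure of the field of the `p`-adic numbers, with its norm. -/
abbrev Kp (p : Nat.Primes) : Type := PadicAlgCl (p : ℕ)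

/-- The height: the product of the local factors at infinity and at all prime numbers. -/
noncomputable def ht (x y : ∀ k, E k) : ℝ := loc E ℂ x y * ∏ᶠ p : Nat.Primes, loc E (Kp p) x y

/-- all conjugates of `(x : y)` are different points of the projective line -/
def Distinct (x y : ∀ k, E k) : Prop := ∀ i j : Emb E ℂ, i ≠ j → pl E x y i j ≠ 0

/-- `(x', y') = e (a x + b y, c x + d y)` with `a d - b c ≠ 0` and an invertible `e ∈ ∏ E k`. -/
def Same (P Q : (∀ k, E k) × (∀ k, E k)) : Prop :=
  ∃ (e : ∀ k, E k) (a b c d : ℚ), (∀ k, e k ≠ 0) ∧ a * d - b * c ≠ 0 ∧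
    Q.1 = e * (a • P.1 + b • P.2) ∧ Q.2 = e * (c • P.1 + d • P.2)

/-- the number of the embeddings -/
noncomputable def deg : ℕ := ∑ k, Module.finrank ℚ (E k)

/-- The product of the norms of all vectors `(σ(x), σ(y))` at all primes; for `E` a field this is
the inverse of the norm of the fractional ideal `(x, y)`. -/
noncomputable def cont (F : Type) [Field F] [NumberField F] (x y : F) : ℝ :=
  ∏ᶠ p : Nat.Primes, ∏ σ : F →+* Kp p, max ‖σ x‖ ‖σ y‖

end Pool.Agent.K1H88.DP
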