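import Pool.Agent.K1H88.DP.Asm2
import Pool.Agent.K1H1.DP.HallDual
import Pool.Agent.K1H1.DP.Inv
import Pool.Agent.K1H10.DP.FinTrans
import Pool.Agent.K1H96.DP.Unr
import Pool.Agent.K1H39.DP.Rat
import Pool.Agent.K1H99.DP.Min
import Pool.Agent.K1H89.DP.Ideal
import Pool.Agent.K1H59.DP.Scale
import Pool.Agent.K1H59.DP.Sum
import Pool.Agent.K1H36.DP.Red
import Pool.Agent.K1H45.DP.Box
import Pool.Agent.K1H52.DP.Tot

/-! Project DP: the final theorem. -/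

set_option autoImplicit false

namespace Pool.Agent.K1H88.DP

theorem final {ι : Type} [Fintype ι] (E : ι → Type) [∀ k, Field (E k)] [∀ k, NumberField (E k)]
    (hodd : Odd (deg E)) (hd : 3 ≤ deg E) : ∃ C : ℝ, ∀ T : ℝ, 2 ≤ T →
      ∀ A : Set ((∀ k, E k) × (∀ k, E k)),
        (∀ P ∈ A, Distinct E P.1 P.2 ∧ ht E P.1 P.2 ≤ T) →
        (∀ P ∈ A, ∀ Q ∈ A, Same E P Q → P = Q) →
        A.Finite ∧ (A.ncard : ℝ) ≤ C * T * Real.log T ^ (Fintype.card ι - 1) :=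
  count E (K1H99.DP.t_MIN K1H1.DP.t_HALL K1H10.DP.t_FIN K1H10.DP.t_TRANS K1H96.DP.Unr.t_UNR
      K1H39.DP.t_RAT)
    (K1H1.DP.Inv.t_INV K1H10.DP.t_TRANS) K1H1.DP.t_DUAL K1H10.DP.t_FIN K1H89.DP.t_IDEAL
    (K1H59.DP.t_SCALE K1H89.DP.t_IDEAL) K1H1.DP.Inv.t_CINV K1H1.DP.Inv.t_ZERO K1H36.DP.t_RED
    (K1H52.DP.t_TOT (K1H45.DP.t_SLAB K1H45.DP.t_BOX) K1H59.DP.t_SUM) hodd hd

end Pool.Agent.K1H88.DP
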